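import Pool.Agent.Helper42.SQ.SHARP3B

/-!
# SQ, block SHARP5, part A: one absolute value

`z`: a root of `∏_s (X - a s) + u ∏_s (X - b s)`, `s : Fin r`, for `2 r` different points `a s`, `b s`; the forms are
`(z - a s) ^ j (z - b s) ^ (n - j)`.
-/

set_option autoImplicit false
set_option linter.unusedSectionVars false

namespace Pool.Agent.SQ

open NumberField Filter Module
open Pool.Agent.Helper64.Vojta (Pl nv nv_one nv_mul nv_pos nv_nonneg nv_zero nv_inv)
open Pool.Agent.V2

universe u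

section

variable {k : Type u} [Field k] [NumberField k]

/-- the constant for the points `P` -/
noncomputable def LP5 {ι : Type*} [Fintype ι] (P : ι → k) (v : Pl k) : ℝ :=
  2 * Real.log (ka73 v) + ∑ j, lm73 (P j) v + ∑ j, ∑ j', lm73 (P j - P j')⁻¹ v

theorem finS_LP5 {ι : Type*} [Fintype ι] (P : ι → k) : FinS (LP5 P) := by
  unfold LP5
  exact ((finS_ka73.const_mul 2).add (FinS.sum _ fun j _ => finS_lm73 _)).add
    (FinS.sum _ fun j _ => FinS.sum _ fun j' _ => finS_lm73 _)

theorem LP_ge5 {ι : Type*} [Fintype ι] (P : ι → k) (v : Pl k) (j j' : ι) :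
    2 * Real.log (ka73 v) + lm73 (P j) v + lm73 (P j - P j')⁻¹ v ≤ LP5 P v := by
  unfold LP5
  have h1 := Finset.single_le_sum (f := fun j => lm73 (P j) v) (fun j _ => lm_nonneg73 _ _) (Finset.mem_univ j)
  have h2 := Finset.single_le_sum (f := fun j' => lm73 (P j - P j')⁻¹ v) (fun j' _ => lm_nonneg73 _ _) (Finset.mem_univ j')
  have h3 := Finset.single_le_sum (f := fun j => ∑ j', lm73 (P j - P j')⁻¹ v)
    (fun j _ => Finset.sum_nonneg fun j' _ => lm_nonneg73 _ _) (Finset.mem_univ j)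
  linarith

/-- the constant for the product over the points -/
noncomputable def LQ5 {r : ℕ} (a : Fin r → k) (v : Pl k) : ℝ := ∑ s, (Real.log (ka73 v) + lm73 (a s) v)

theorem finS_LQ5 {r : ℕ} (a : Fin r → k) : FinS (LQ5 a) := by
  unfold LQ5
  exact FinS.sum _ fun s _ => finS_ka73.add (finS_lm73 _)

theorem LQ_nonneg5 {r : ℕ} (a : Fin r → k) (v : Pl k) : 0 ≤ LQ5 a v :=
  Finset.sum_nonneg fun s _ => add_nonneg (lka_nonneg73 v) (lm_nonneg73 _ _)

variable {v : Pl k} {L : Type u} [Field L] [Algebra k L] {N : L → ℝ}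

/-- All points but one are far. -/
theorem near5 (h : AV73 v N) {ι : Type*} [Fintype ι] [Nonempty ι] (P : ι → k) (hP : Function.Injective P) (z : L) :
    ∃ j₀, ∀ j, j ≠ j₀ → max 1 (N z) ≤ Real.exp (LP5 P v) * N (z - algebraMap k L (P j)) := by
  obtain ⟨j₀, -, hj₀⟩ := Finset.exists_min_image Finset.univ (fun j => N (z - algebraMap k L (P j))) Finset.univ_nonempty
  refine ⟨j₀, fun j hj => ?_⟩
  have h3 := h.two_pt (hP.ne hj.symm) z
  rw [max_eq_right (hj₀ j (Finset.mem_univ j))] at h3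
  exact h3.trans (mul_le_mul_of_nonneg_right (Real.exp_le_exp.2 (LP_ge5 P v j₀ j)) (h.nonneg _))

theorem prod_le5 (h : AV73 v N) {r : ℕ} (a : Fin r → k) (z : L) (hz : ∏ s, (z - algebraMap k L (a s)) ≠ 0) :
    Real.log (N (∏ s, (z - algebraMap k L (a s)))) ≤ r * Real.log (max 1 (N z)) + LQ5 a v := by
  have h0 : ∀ s, z - algebraMap k L (a s) ≠ 0 := fun s => Finset.prod_ne_zero_iff.1 hz s (Finset.mem_univ s)
  rw [h.prod, Real.log_prod fun s _ => (h.pos _ (h0 s)).ne']
  have h1 : ∑ s, Real.log (N (z - algebraMap k L (a s))) ≤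
      ∑ s, (Real.log (max 1 (N z)) + (Real.log (ka73 v) + lm73 (a s) v)) :=
    Finset.sum_le_sum fun s _ => h.log_one_pt (a s) z (h0 s)
  rw [Finset.sum_add_distrib, Finset.sum_const, Finset.card_univ, Fintype.card_fin, nsmul_eq_mul] at h1
  exact h1

theorem prod_ge5 (h : AV73 v N) {r : ℕ} (b : Fin r → k) (z : L) (E : ℝ)
    (hb : ∀ s, max 1 (N z) ≤ Real.exp E * N (z - algebraMap k L (b s))) :
    r * Real.log (max 1 (N z)) ≤ r * E + Real.log (N (∏ s, (z - algebraMap k L (b s)))) := by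
  have h1 : (0 : ℝ) < max 1 (N z) := lt_max_of_lt_left one_pos
  have hE := Real.exp_pos E
  have h2 : ∀ s, 0 < N (z - algebraMap k L (b s)) := by
    intro s
    by_contra h0
    rw [not_lt] at h0
    have h3 := hb s
    have h4 : Real.exp E * N (z - algebraMap k L (b s)) ≤ 0 := mul_nonpos_of_nonneg_of_nonpos hE.le h0
    linarith
  have h3 : ∑ _s : Fin r, Real.log (max 1 (N z)) ≤ ∑ s : Fin r, (E + Real.log (N (z - algebraMap k L (b s)))) := by
    refine Finset.sum_le_sum fun s _ => ?_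
    have h4 := Real.log_le_log h1 (hb s)
    rwa [Real.log_mul hE.ne' (h2 s).ne', Real.log_exp] at h4
  rw [Finset.sum_add_distrib, Finset.sum_const, Finset.sum_const, Finset.card_univ, Fintype.card_fin, nsmul_eq_mul,
    nsmul_eq_mul] at h3
  rw [h.prod, Real.log_prod fun s _ => (h2 s).ne']
  exact h3

/-- the relation between the two products -/
theorem prods5 (h : AV73 v N) {r : ℕ} {a b : Fin r → k} {u : k} (hu : u ≠ 0) {z : L}
    (hz : ∏ s, (z - algebraMap k L (a s)) + algebraMap k L u * ∏ s, (z - algebraMap k L (b s)) = 0)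
    (hB : ∏ s, (z - algebraMap k L (b s)) ≠ 0) :
    Real.log (N (∏ s, (z - algebraMap k L (a s)))) = Real.log (nv v u) + Real.log (N (∏ s, (z - algebraMap k L (b s)))) := by
  have h1 : ∏ s, (z - algebraMap k L (a s)) = - (algebraMap k L u * ∏ s, (z - algebraMap k L (b s))) := by
    linear_combination hz
  rw [h1, h.neg, h.mul, h.ext, Real.log_mul (nv_pos v hu).ne' (h.pos _ hB).ne']

theorem ht_up5 (h : AV73 v N) {r : ℕ} (hr : 0 < r) {a b : Fin r → k} (hab : Function.Injective (Sum.elim a b)) {u : k} (hu : u ≠ 0)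
    {z : L} (hz : ∏ s, (z - algebraMap k L (a s)) + algebraMap k L u * ∏ s, (z - algebraMap k L (b s)) = 0)
    (hB : ∏ s, (z - algebraMap k L (b s)) ≠ 0) :
    r * Real.log (max 1 (N z)) ≤ r * LP5 (Sum.elim a b) v + lm73 u v + Real.log (N (∏ s, (z - algebraMap k L (b s)))) := by
  have hne : Nonempty (Fin r ⊕ Fin r) := ⟨Sum.inl ⟨0, hr⟩⟩
  obtain ⟨j₀, hj₀⟩ := near5 h (Sum.elim a b) hab z
  have hl := lm_nonneg73 u v
  have hl' := log_le_lm73 u v hu
  rcases j₀ with s₀ | s₀
  · have h1 := prod_ge5 h b z (LP5 (Sum.elim a b) v) fun s => hj₀ (Sum.inr s) (by simp)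
    linarith
  · have h1 := prod_ge5 h a z (LP5 (Sum.elim a b) v) fun s => hj₀ (Sum.inl s) (by simp)
    have h2 := prods5 h hu hz hB
    linarith

theorem ht_lo5 (h : AV73 v N) {r : ℕ} {a b : Fin r → k} {u : k} (hu : u ≠ 0)
    {z : L} (hz : ∏ s, (z - algebraMap k L (a s)) + algebraMap k L u * ∏ s, (z - algebraMap k L (b s)) = 0)
    (hA : ∏ s, (z - algebraMap k L (a s)) ≠ 0) (hB : ∏ s, (z - algebraMap k L (b s)) ≠ 0) :
    lm73 u v ≤ r * Real.log (max 1 (N z)) - Real.log (N (∏ s, (z - algebraMap k L (b s)))) + (LQ5 a v + LQ5 b v) := by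
  have h1 := prod_le5 h a z hA
  have h2 := prod_le5 h b z hB
  have h3 := prods5 h hu hz hB
  have h4 := LQ_nonneg5 a v
  have h5 := LQ_nonneg5 b v
  rcases le_total (nv v u) 1 with h7 | h7
  · have h8 : lm73 u v = 0 := by
      unfold lm73
      rw [max_eq_left h7, Real.log_one]
    rw [h8]
    linarith
  · have h8 : lm73 u v = Real.log (nv v u) := by
      unfold lm73
      rw [max_eq_right h7]
    rw [h8]
    linarith

theorem sum_id5 (n : ℕ) : ∑ j : Fin (n + 1), ((j : ℕ) : ℝ) = n * (n + 1) / 2 := by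
  rw [Fin.sum_univ_eq_sum_range (fun s => (s : ℝ)) (n + 1)]
  induction n with
  | zero => simp
  | succ n ih =>
    rw [Finset.sum_range_succ, ih]
    push_cast
    ring

/-- the sum of the local functions of all forms -/
theorem loc5 (h : AV73 v N) {n r : ℕ} {a b : Fin r → k} {u : k} (hu : u ≠ 0)
    {z : L} (hz : ∏ s, (z - algebraMap k L (a s)) + algebraMap k L u * ∏ s, (z - algebraMap k L (b s)) = 0)
    (hA : ∏ s, (z - algebraMap k L (a s)) ≠ 0) (hB : ∏ s, (z - algebraMap k L (b s)) ≠ 0) :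
    (n * (n + 1) / 2 : ℝ) * (2 * lm73 u v - Real.log (nv v u) - 2 * (LQ5 a v + LQ5 b v)) ≤
      ∑ s : Fin r, ∑ j : Fin (n + 1), (n * Real.log (max 1 (N z)) -
        Real.log (N ((z - algebraMap k L (a s)) ^ (j : ℕ) * (z - algebraMap k L (b s)) ^ (n - (j : ℕ))))) := by
  have ha0 : ∀ s, z - algebraMap k L (a s) ≠ 0 := fun s => Finset.prod_ne_zero_iff.1 hA s (Finset.mem_univ s)
  have hb0 : ∀ s, z - algebraMap k L (b s) ≠ 0 := fun s => Finset.prod_ne_zero_iff.1 hB s (Finset.mem_univ s)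
  have hpow : ∀ (x : L) (m : ℕ), N (x ^ m) = N x ^ m := by
    intro x m
    induction m with
    | zero => rw [pow_zero, pow_zero, h.one]
    | succ m ih => rw [pow_succ, pow_succ, h.mul, ih]
  have h1 : ∀ s : Fin r, ∑ j : Fin (n + 1), (n * Real.log (max 1 (N z)) -
        Real.log (N ((z - algebraMap k L (a s)) ^ (j : ℕ) * (z - algebraMap k L (b s)) ^ (n - (j : ℕ))))) =
      (n * (n + 1) / 2 : ℝ) * (2 * Real.log (max 1 (N z)) - Real.log (N (z - algebraMap k L (a s))) -
        Real.log (N (z - algebraMap k L (b s)))) := by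
    intro s
    have h2 : ∀ j : Fin (n + 1), (n * Real.log (max 1 (N z)) -
        Real.log (N ((z - algebraMap k L (a s)) ^ (j : ℕ) * (z - algebraMap k L (b s)) ^ (n - (j : ℕ))))) =
        n * Real.log (max 1 (N z)) - n * Real.log (N (z - algebraMap k L (b s))) -
          ((j : ℕ) : ℝ) * (Real.log (N (z - algebraMap k L (a s))) - Real.log (N (z - algebraMap k L (b s)))) := by
      intro j
      have hj : (j : ℕ) ≤ n := Nat.lt_succ_iff.1 j.2
      rw [h.mul, hpow, hpow, Real.log_mul (pow_ne_zero _ (h.pos _ (ha0 s)).ne') (pow_ne_zero _ (h.pos _ (hb0 s)).ne'),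
        Real.log_pow, Real.log_pow, Nat.cast_sub hj]
      ring
    rw [Finset.sum_congr rfl fun j _ => h2 j, Finset.sum_sub_distrib, Finset.sum_const, Finset.card_univ, Fintype.card_fin,
      nsmul_eq_mul, ← Finset.sum_mul, sum_id5]
    push_cast
    ring
  rw [Finset.sum_congr rfl fun s _ => h1 s, ← Finset.mul_sum, Finset.sum_sub_distrib, Finset.sum_sub_distrib, Finset.sum_const,
    Finset.card_univ, Fintype.card_fin, nsmul_eq_mul, ← Real.log_prod fun s _ => (h.pos _ (ha0 s)).ne',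
    ← Real.log_prod fun s _ => (h.pos _ (hb0 s)).ne', ← h.prod, ← h.prod]
  refine mul_le_mul_of_nonneg_left ?_ (by positivity)
  have e1 := prod_le5 h a z hA
  have e2 := prod_le5 h b z hB
  have e3 := prods5 h hu hz hB
  have e4 := LQ_nonneg5 a v
  have e5 := LQ_nonneg5 b v
  rcases le_total (nv v u) 1 with h7 | h7
  · have h8 : lm73 u v = 0 := by
      unfold lm73
      rw [max_eq_left h7, Real.log_one]
    rw [h8]
    linarith
  · have h8 : lm73 u v = Real.log (nv v u) := by
      unfold lm73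
      rw [max_eq_right h7]
    rw [h8]
    linarith

/-- the size of `(1 : z : ... : z ^ n)` -/
theorem mxn5 (h : AV73 v N) (n : ℕ) (z : L) :
    mxn N (fun j : Fin (n + 1) => z ^ (j : ℕ)) = max 1 (N z) ^ n := by
  have hpow : ∀ (x : L) (m : ℕ), N (x ^ m) = N x ^ m := by
    intro x m
    induction m with
    | zero => rw [pow_zero, pow_zero, h.one]
    | succ m ih => rw [pow_succ, pow_succ, h.mul, ih]
  have h0 := h.nonneg z
  have h1 : (1 : ℝ) ≤ max 1 (N z) := le_max_left _ _
  have hle : ∀ j : Fin (n + 1), N (z ^ (j : ℕ)) ≤ mxn N (fun j : Fin (n + 1) => z ^ (j : ℕ)) := fun j =>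
    le_ciSup (Set.finite_range fun j : Fin (n + 1) => N (z ^ (j : ℕ))).bddAbove j
  apply le_antisymm
  · refine ciSup_le fun j => ?_
    rw [hpow]
    refine (pow_le_pow_left₀ h0 (le_max_right 1 _) _).trans (pow_le_pow_right₀ h1 ?_)
    have := j.2
    omega
  · rcases le_total (N z) 1 with h2 | h2
    · rw [max_eq_left h2, one_pow]
      have h3 := hle 0
      rwa [Fin.val_zero, pow_zero, h.one] at h3
    · rw [max_eq_right h2, ← hpow]
      have h3 := hle (Fin.last n)
      rwa [Fin.val_last] at h3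

end

end Pool.Agent.SQ
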