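import Pool.Agent.Helper42.SQ.SHARP3A
import Pool.Agent.Helper42.SQ.HTg
import Pool.Agent.Helper11.SH.S5A

/-!
# SQ, block SHARP5: `r (n + 1)` for `r (n + 1)` hyperplanes, every `k`

`x = (1 : t : ... : t ^ n)`, `t` a root of `∏_s (X - a s) + u ∏_s (X - b s)`, `u = 2 ^ m`; the hyperplanes are `(X - a s) ^ j (X - b s) ^ (n - j)`,
`s : Fin r`, `j : Fin (n + 1)`; `S` : the archimedean places and those above `2`.
-/

set_option autoImplicit false
set_option linter.unusedSectionVars false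

namespace Pool.Agent.SQ

open NumberField Filter Module
open Pool.Agent.Helper64.Vojta (Pl nv nv_one nv_mul nv_pos nv_nonneg nv_zero nv_inv)
open Pool.Agent.V2
open Pool.Agent.Chart (fld dg crd val hgt lam)

universe u

/-! ### powers of two -/

section

variable {k : Type u} [Field k] [NumberField k]

private noncomputable def T5 (k : Type u) [Field k] [NumberField k] : ℝ :=
  ∑ v : InfinitePlace k, Real.log (nv (.inl v : Pl k) (2 : k))

private theorem nv_two5 (v : InfinitePlace k) : 2 ≤ nv (.inl v : Pl k) (2 : k) := by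
  show (2 : ℝ) ≤ v 2 ^ v.mult
  have h1 : v (2 : k) = 2 := by
    rw [← InfinitePlace.norm_embedding_eq, map_ofNat]
    simp
  rw [h1]
  exact le_self_pow₀ (by norm_num) v.mult_ne_zero

private theorem T_pos5 : 0 < T5 k := by
  unfold T5
  refine Finset.sum_pos (fun v _ => Real.log_pos (by have := nv_two5 v; linarith)) ?_
  exact Finset.univ_nonempty

private theorem nv_pow5 (v : Pl k) (c : k) (m : ℕ) : nv v (c ^ m) = nv v c ^ m := by
  induction m with
  | zero => rw [pow_zero, pow_zero, nv_one]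
  | succ m ih => rw [pow_succ, pow_succ, nv_mul, ih]

private theorem nv_fin_two5 (v : FinitePlace k) : nv (.inr v : Pl k) (2 : k) ≤ 1 := by
  have h1 := Pool.Agent.Helper64.Vojta.nv_int_le_one v (2 : 𝓞 k)
  have h2 : ((2 : 𝓞 k) : k) = 2 := map_ofNat (algebraMap (𝓞 k) k) 2
  rwa [h2] at h1

private theorem lm_inr5 (m : ℕ) (v : FinitePlace k) : lm73 ((2 : k) ^ m) (.inr v) = 0 := by
  unfold lm73
  rw [nv_pow5, max_eq_left (pow_le_one₀ (nv_nonneg _ _) (nv_fin_two5 v)), Real.log_one]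

private theorem lm_inl5 (m : ℕ) (v : InfinitePlace k) : lm73 ((2 : k) ^ m) (.inl v) = m * Real.log (nv (.inl v : Pl k) (2 : k)) := by
  unfold lm73
  rw [nv_pow5, max_eq_right (one_le_pow₀ (by have := nv_two5 v; linarith)), Real.log_pow]

private theorem gsum_lm5 (m : ℕ) : gsum (lm73 ((2 : k) ^ m)) = m * T5 k := by
  unfold gsum T5
  simp only [lm_inr5, lm_inl5, finsum_zero, add_zero, Finset.mul_sum]

private theorem exists_S5 (k : Type u) [Field k] [NumberField k] : ∃ S : Finset (Pl k), ∀ m : ℕ,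
    ∑ v ∈ S, lm73 ((2 : k) ^ m) v = m * T5 k ∧ ∑ v ∈ S, Real.log (nv v ((2 : k) ^ m)) = 0 := by
  classical
  have hf : FinS fun v => Real.log (nv v (2 : k)) := finS_nv two_ne_zero
  have hf' : (Function.support fun v : FinitePlace k => Real.log (nv (.inr v) (2 : k))).Finite := hf
  refine ⟨Finset.univ.disjSum hf'.toFinset, fun m => ?_⟩
  rw [Finset.sum_disjSum, Finset.sum_disjSum]
  refine ⟨?_, ?_⟩
  · simp only [lm_inr5, lm_inl5, Finset.sum_const_zero, add_zero]
    rw [← Finset.mul_sum]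
    rfl
  · have h3 := gsum_nv (K := k) (y := (2 : k)) two_ne_zero
    unfold gsum at h3
    rw [finsum_eq_sum_of_support_subset _ (s := hf'.toFinset) (by rw [Set.Finite.coe_toFinset])] at h3
    simp only [nv_pow5, Real.log_pow]
    rw [← Finset.mul_sum, ← Finset.mul_sum, ← mul_add, h3, mul_zero]

private theorem exists_pow5 {K : Type*} [Field K] [CharZero K] (A : Finset K) : ∃ m₀ : ℕ, ∀ m, m₀ ≤ m → (2 : K) ^ m ∉ A := by
  classical
  have hinj : Function.Injective fun m : ℕ => (2 : K) ^ m := by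
    intro a b hab
    have h1 : ((2 ^ a : ℕ) : K) = ((2 ^ b : ℕ) : K) := by
      push_cast
      exact hab
    exact Nat.pow_right_injective (le_refl 2) (Nat.cast_injective h1)
  have hf : {m : ℕ | (2 : K) ^ m ∈ A}.Finite := A.finite_toSet.preimage hinj.injOn
  obtain ⟨M, hM⟩ := hf.bddAbove
  refine ⟨M + 1, fun m hm h => ?_⟩
  have := hM h
  omega

end

/-! ### the polynomials -/

section

variable {k : Type u} [Field k]

/-- `∏ (X - a s)` -/
noncomputable def pr5 {r : ℕ} (a : Fin r → k) : Polynomial k := ∏ s, (Polynomial.X - Polynomial.C (a s))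

theorem pr_monic5 {r : ℕ} (a : Fin r → k) : (pr5 a).Monic :=
  Polynomial.monic_prod_of_monic _ _ fun s _ => Polynomial.monic_X_sub_C (a s)

theorem pr_deg5 {r : ℕ} (a : Fin r → k) : (pr5 a).natDegree = r := by
  unfold pr5
  rw [Polynomial.natDegree_prod_of_monic _ _ fun s _ => Polynomial.monic_X_sub_C (a s)]
  simp

theorem pr_aeval5 {L : Type*} [Field L] [Algebra k L] {r : ℕ} (a : Fin r → k) (z : L) :
    Polynomial.aeval z (pr5 a) = ∏ s, (z - algebraMap k L (a s)) := by
  unfold pr5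
  rw [map_prod]
  exact Finset.prod_congr rfl fun s _ => by rw [map_sub, Polynomial.aeval_X, Polynomial.aeval_C]

/-- the degree of `∏ (X - a s) + u ∏ (X - b s)` -/
theorem pF5 {r : ℕ} (a b : Fin r → k) {u : k} (hu : 1 + u ≠ 0) :
    (pr5 a + Polynomial.C u * pr5 b).natDegree = r := by
  have ha : (pr5 a).coeff r = 1 := by
    have h1 := (pr_monic5 a).coeff_natDegree
    rwa [pr_deg5] at h1
  have hb : (pr5 b).coeff r = 1 := by
    have h1 := (pr_monic5 b).coeff_natDegree
    rwa [pr_deg5] at h1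
  refine Polynomial.natDegree_eq_of_le_of_coeff_ne_zero ?_ ?_
  · refine Polynomial.natDegree_add_le_of_degree_le (pr_deg5 a).le ?_
    exact (Polynomial.natDegree_C_mul_le _ _).trans (pr_deg5 b).le
  · rw [Polynomial.coeff_add, Polynomial.coeff_C_mul, ha, hb, mul_one]
    exact hu

/-- the forms `(X - a s) ^ j (X - b s) ^ (n - j)` -/
noncomputable def fm5 {n r : ℕ} (a b : Fin r → k) (e : Fin r × Fin (n + 1)) : Polynomial k :=
  (Polynomial.X - Polynomial.C (a e.1)) ^ (e.2 : ℕ) * (Polynomial.X - Polynomial.C (b e.1)) ^ (n - (e.2 : ℕ))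

theorem fm_deg5 {n r : ℕ} (a b : Fin r → k) (e : Fin r × Fin (n + 1)) : (fm5 a b e).natDegree ≤ n := by
  unfold fm5
  have h1 := Polynomial.natDegree_mul_le (p := (Polynomial.X - Polynomial.C (a e.1)) ^ (e.2 : ℕ))
    (q := (Polynomial.X - Polynomial.C (b e.1)) ^ (n - (e.2 : ℕ)))
  rw [Polynomial.natDegree_pow, Polynomial.natDegree_pow, Polynomial.natDegree_X_sub_C, Polynomial.natDegree_X_sub_C] at h1
  have h2 := e.2.2
  omega

theorem fm_aeval5 {L : Type*} [Field L] [Algebra k L] {n r : ℕ} (a b : Fin r → k) (e : Fin r × Fin (n + 1)) (z : L) :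
    Polynomial.aeval z (fm5 a b e) =
      (z - algebraMap k L (a e.1)) ^ (e.2 : ℕ) * (z - algebraMap k L (b e.1)) ^ (n - (e.2 : ℕ)) := by
  unfold fm5
  rw [map_mul, map_pow, map_pow, map_sub, map_sub, Polynomial.aeval_X, Polynomial.aeval_C, Polynomial.aeval_C]

theorem sum_coeff5 {L : Type*} [Field L] [Algebra k L] {n : ℕ} (F : Polynomial k) (hF : F.natDegree ≤ n) (z : L) :
    ∑ j : Fin (n + 1), algebraMap k L (F.coeff j) * z ^ (j : ℕ) = Polynomial.aeval z F := by
  rw [Polynomial.aeval_eq_sum_range' (Nat.lt_succ_of_le hF), ← Fin.sum_univ_eq_sum_range (fun i => F.coeff i • z ^ i)]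
  exact Finset.sum_congr rfl fun j _ => by rw [Algebra.smul_def]

end

/-! ### the points -/

section

variable {k : Type u} [Field k] [NumberField k]

/-- the degree of a point in the field generated by a root of a polynomial -/
private theorem dg_le5 {n r : ℕ} (x : Fin (n + 1) → AlgebraicClosure k) (z : AlgebraicClosure k) (F : Polynomial k) (hF : F ≠ 0)
    (hr : F.natDegree = r) (hz : Polynomial.aeval z F = 0)
    (hx : ∀ j, x j ∈ IntermediateField.adjoin k {z}) : dg x ≤ r := by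
  have hint : IsIntegral k z := (Algebra.IsAlgebraic.isAlgebraic z).isIntegral
  have hfd : FiniteDimensional k (IntermediateField.adjoin k {z}) := IntermediateField.adjoin.finiteDimensional hint
  have h1 : fld x ≤ IntermediateField.adjoin k {z} := by
    unfold fld
    rw [IntermediateField.adjoin_le_iff]
    rintro _ ⟨j, rfl⟩
    exact hx j
  have h2 : dg x ≤ finrank k (IntermediateField.adjoin k {z}) := by
    unfold dg
    exact LinearMap.finrank_le_finrank_of_injective (f := (IntermediateField.inclusion h1).toLinearMap)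
      (IntermediateField.inclusion_injective h1)
  rw [IntermediateField.adjoin.finrank hint] at h2
  rw [← hr]
  exact h2.trans (Polynomial.natDegree_le_of_dvd (minpoly.dvd k z hz) hF)

/-- the coordinates of the value of a form -/
theorem coe_val5 {n : ℕ} (c : Fin (n + 1) → k) (x : Fin (n + 1) → AlgebraicClosure k) :
    ((val c x : fld x) : AlgebraicClosure k) = ∑ j, algebraMap k _ (c j) * x j := by
  unfold val
  rw [← IntermediateField.algebraMap_apply, map_sum]
  refine Finset.sum_congr rfl fun j _ => ?_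
  rw [map_mul]
  rfl

/-- one value of `u` -/
private theorem one5 {n r : ℕ} (hr : 0 < r) {a b : Fin r → k} (hab : Function.Injective (Sum.elim a b)) {u : k} (hu : u ≠ 0)
    (t : AlgebraicClosure k)
    (ht : ∏ s, (t - algebraMap k _ (a s)) + algebraMap k _ u * ∏ s, (t - algebraMap k _ (b s)) = 0)
    (hA : ∏ s, (t - algebraMap k _ (a s)) ≠ 0) (hB : ∏ s, (t - algebraMap k _ (b s)) ≠ 0) :
    r * hgt (fun j : Fin (n + 1) => t ^ (j : ℕ)) ≤ n * (gsum (lm73 u) + r * gsum (LP5 (Sum.elim a b))) ∧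
    n * (gsum (lm73 u) - gsum fun v => LQ5 a v + LQ5 b v) ≤ r * hgt (fun j : Fin (n + 1) => t ^ (j : ℕ)) ∧
    ∀ v : Pl k, (n * (n + 1) / 2 : ℝ) * (2 * lm73 u v - Real.log (nv v u) - 2 * (LQ5 a v + LQ5 b v)) ≤
      ∑ e : Fin r × Fin (n + 1), lam (fun j : Fin (n + 1) => (fm5 a b e).coeff j) v (fun j : Fin (n + 1) => t ^ (j : ℕ)) := by
  classical
  let z : Fin 1 → AlgebraicClosure k := fun _ => t
  have hfd0 : FiniteDimensional k (fld z) := FiniteDimensional.right ℚ k (fld z)
  have hfd : FiniteDimensional k (gal z) := by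
    unfold gal
    infer_instance
  have hgal : IsGalois k (gal z) := by
    unfold gal
    infer_instance
  have hmem : t ∈ gal z := by
    have h1 : fld z ≤ gal z := IntermediateField.le_normalClosure _
    exact h1 (IntermediateField.subset_adjoin k _ ⟨0, rfl⟩)
  obtain ⟨M, inst, hQS, hdat⟩ := data_L73 (gal z)
  have hcard : (Fintype.card (gal z ≃ₐ[k] gal z) : ℝ) = finrank k (gal z) := by
    rw [← Nat.card_eq_fintype_card, IsGalois.card_aut_eq_finrank]
  have hpos : (0 : ℝ) < finrank k (gal z) := by exact_mod_cast (finrank_pos (R := k) (M := gal z))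
  let τ : gal z := ⟨t, hmem⟩
  have hcoe : ∀ c : Fin r → k, ((∏ s, (τ - algebraMap k (gal z) (c s)) : gal z) : AlgebraicClosure k) =
      ∏ s, (t - algebraMap k _ (c s)) := by
    intro c
    rw [IntermediateField.coe_prod]
    rfl
  have hz : ∏ s, (τ - algebraMap k (gal z) (a s)) + algebraMap k (gal z) u * ∏ s, (τ - algebraMap k (gal z) (b s)) = 0 := by
    apply Subtype.ext
    have h1 : ((∏ s, (τ - algebraMap k (gal z) (a s)) + algebraMap k (gal z) u * ∏ s, (τ - algebraMap k (gal z) (b s)) : gal z) :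
        AlgebraicClosure k) = ((∏ s, (τ - algebraMap k (gal z) (a s)) : gal z) : AlgebraicClosure k) +
        algebraMap k _ u * ((∏ s, (τ - algebraMap k (gal z) (b s)) : gal z) : AlgebraicClosure k) := rfl
    rw [h1, hcoe, hcoe]
    exact ht
  have hA' : ∏ s, (τ - algebraMap k (gal z) (a s)) ≠ 0 := by
    intro h0
    apply hA
    rw [← hcoe, h0]
    rfl
  have hB' : ∏ s, (τ - algebraMap k (gal z) (b s)) ≠ 0 := by
    intro h0
    apply hB
    rw [← hcoe, h0]
    rfl
  let y : Fin (n + 1) → gal z := fun j => τ ^ (j : ℕ)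
  have hy1 : ∃ j, y j = 1 := ⟨0, by simp [y]⟩
  obtain ⟨d1, d2⟩ := hdat n (fun j : Fin (n + 1) => t ^ (j : ℕ)) y ⟨0, by simp⟩ (fun j => by
    show ((τ ^ (j : ℕ) : gal z) : AlgebraicClosure k) = t ^ (j : ℕ)
    rw [SubmonoidClass.coe_pow])
  have hmx : ∀ (v : Pl k) (g : gal z ≃ₐ[k] gal z), Real.log (mxn (M v) fun j => (MonoidHom.id (gal z ≃ₐ[k] gal z)) g (y j)) =
      n * Real.log (max 1 (M v ((MonoidHom.id (gal z ≃ₐ[k] gal z)) g τ))) := by
    intro v g
    have h1 := mxn5 (hQS.av73 v g) n τ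
    have h2 : mxn (fun x => M v ((MonoidHom.id (gal z ≃ₐ[k] gal z)) g x)) (fun j : Fin (n + 1) => τ ^ (j : ℕ)) =
        mxn (M v) fun j => (MonoidHom.id (gal z ≃ₐ[k] gal z)) g (y j) := rfl
    rw [← h2, h1, Real.log_pow]
  have F1 : FinS fun v => ∑ g, Real.log (mxn (M v) fun i => (MonoidHom.id (gal z ≃ₐ[k] gal z)) g (y i)) := Hg_finS hQS y hy1
  have F3 : FinS fun v => ∑ g, Real.log (M v ((MonoidHom.id (gal z ≃ₐ[k] gal z)) g (∏ s, (τ - algebraMap k (gal z) (b s))))) :=
    FinS.sum _ fun g _ => hQS.fin _ ((map_ne_zero ((MonoidHom.id (gal z ≃ₐ[k] gal z)) g)).2 hB')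
  have Fu := finS_lm73 u
  have FP := finS_LP5 (Sum.elim a b)
  have FQ : FinS fun v => LQ5 a v + LQ5 b v := (finS_LQ5 a).add (finS_LQ5 b)
  refine ⟨?_, ?_, ?_⟩
  · have h1 : ∀ v : Pl k, r * ∑ g, Real.log (mxn (M v) fun i => (MonoidHom.id (gal z ≃ₐ[k] gal z)) g (y i)) ≤
        (n * finrank k (gal z) : ℝ) * (lm73 u v + r * LP5 (Sum.elim a b) v) +
          n * ∑ g, Real.log (M v ((MonoidHom.id (gal z ≃ₐ[k] gal z)) g (∏ s, (τ - algebraMap k (gal z) (b s))))) := by
      intro v
      have h2 : ∀ g : gal z ≃ₐ[k] gal z, r * Real.log (mxn (M v) fun i => (MonoidHom.id (gal z ≃ₐ[k] gal z)) g (y i)) ≤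
          n * ((lm73 u v + r * LP5 (Sum.elim a b) v) +
            Real.log (M v ((MonoidHom.id (gal z ≃ₐ[k] gal z)) g (∏ s, (τ - algebraMap k (gal z) (b s)))))) := by
        intro g
        have h3 := ht_up5 (hQS.av73 v g) hr hab hu hz hB'
        rw [hmx]
        have h4 := mul_le_mul_of_nonneg_left h3 (Nat.cast_nonneg (α := ℝ) n)
        linarith
      have h3 := Finset.sum_le_sum fun g (_ : g ∈ (Finset.univ : Finset (gal z ≃ₐ[k] gal z))) => h2 g
      rw [← Finset.mul_sum, ← Finset.mul_sum, Finset.sum_add_distrib, Finset.sum_const, Finset.card_univ, nsmul_eq_mul, hcard] at h3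
      linarith
    have h2 := gsum_mono (F1.const_mul r) (((Fu.add (FP.const_mul r)).const_mul (n * finrank k (gal z) : ℝ)).add (F3.const_mul n)) h1
    rw [gsum_const_mul, gsum_add ((Fu.add (FP.const_mul r)).const_mul (n * finrank k (gal z) : ℝ)) (F3.const_mul n),
      gsum_const_mul, gsum_const_mul, gsum_add Fu (FP.const_mul r), gsum_const_mul, hQS.prod _ hB', mul_zero, add_zero] at h2
    have h3 : (finrank k (gal z) : ℝ) * (r * hgt (fun j : Fin (n + 1) => t ^ (j : ℕ))) ≤
        finrank k (gal z) * (n * (gsum (lm73 u) + r * gsum (LP5 (Sum.elim a b)))) := by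
      have h4 : (finrank k (gal z) : ℝ) * (r * hgt (fun j : Fin (n + 1) => t ^ (j : ℕ))) =
          r * (finrank k (gal z) * hgt (fun j : Fin (n + 1) => t ^ (j : ℕ))) := by ring
      rw [h4, d1]
      unfold Hg
      refine h2.trans (le_of_eq ?_)
      ring
    exact le_of_mul_le_mul_left h3 hpos
  · have h1 : ∀ v : Pl k, (n * finrank k (gal z) : ℝ) * (lm73 u v + (-1) * (LQ5 a v + LQ5 b v)) ≤
        r * ∑ g, Real.log (mxn (M v) fun i => (MonoidHom.id (gal z ≃ₐ[k] gal z)) g (y i)) +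
          (-n) * ∑ g, Real.log (M v ((MonoidHom.id (gal z ≃ₐ[k] gal z)) g (∏ s, (τ - algebraMap k (gal z) (b s))))) := by
      intro v
      have h2 : ∀ g : gal z ≃ₐ[k] gal z, n * (lm73 u v + (-1) * (LQ5 a v + LQ5 b v)) ≤
          r * Real.log (mxn (M v) fun i => (MonoidHom.id (gal z ≃ₐ[k] gal z)) g (y i)) +
          (-n) * Real.log (M v ((MonoidHom.id (gal z ≃ₐ[k] gal z)) g (∏ s, (τ - algebraMap k (gal z) (b s))))) := by
        intro g
        have h3 := ht_lo5 (hQS.av73 v g) hu hz hA' hB'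
        rw [hmx]
        have h4 := mul_le_mul_of_nonneg_left h3 (Nat.cast_nonneg (α := ℝ) n)
        linarith
      have h3 := Finset.sum_le_sum fun g (_ : g ∈ (Finset.univ : Finset (gal z ≃ₐ[k] gal z))) => h2 g
      rw [Finset.sum_const, Finset.card_univ, nsmul_eq_mul, hcard, Finset.sum_add_distrib, ← Finset.mul_sum, ← Finset.mul_sum] at h3
      linarith
    have h2 := gsum_mono ((Fu.add (FQ.const_mul (-1))).const_mul (n * finrank k (gal z) : ℝ))
      ((F1.const_mul r).add (F3.const_mul (-n))) h1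
    rw [gsum_const_mul, gsum_add Fu (FQ.const_mul (-1)), gsum_const_mul, gsum_add (F1.const_mul r) (F3.const_mul (-n)),
      gsum_const_mul, gsum_const_mul, hQS.prod _ hB', mul_zero, add_zero] at h2
    have h3 : (finrank k (gal z) : ℝ) * (n * (gsum (lm73 u) - gsum fun v => LQ5 a v + LQ5 b v)) ≤
        finrank k (gal z) * (r * hgt (fun j : Fin (n + 1) => t ^ (j : ℕ))) := by
      have h4 : (finrank k (gal z) : ℝ) * (r * hgt (fun j : Fin (n + 1) => t ^ (j : ℕ))) =
          r * (finrank k (gal z) * hgt (fun j : Fin (n + 1) => t ^ (j : ℕ))) := by ring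
      rw [h4, d1]
      unfold Hg
      refine le_trans (le_of_eq ?_) h2
      ring
    exact le_of_mul_le_mul_left h3 hpos
  · intro v
    have hval : ∀ e : Fin r × Fin (n + 1), lvg (fun j : Fin (n + 1) => (fm5 a b e).coeff j) y =
        (τ - algebraMap k (gal z) (a e.1)) ^ (e.2 : ℕ) * (τ - algebraMap k (gal z) (b e.1)) ^ (n - (e.2 : ℕ)) := by
      intro e
      have h1 := sum_coeff5 (fm5 a b e) (fm_deg5 a b e) τ
      rw [fm_aeval5] at h1
      exact h1
    have hne : ∀ e : Fin r × Fin (n + 1), val (fun j : Fin (n + 1) => (fm5 a b e).coeff j) (fun j : Fin (n + 1) => t ^ (j : ℕ)) ≠ 0 := by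
      intro e h0
      have h1 := coe_val5 (fun j : Fin (n + 1) => (fm5 a b e).coeff j) (fun j : Fin (n + 1) => t ^ (j : ℕ))
      rw [h0, sum_coeff5 (fm5 a b e) (fm_deg5 a b e) t, fm_aeval5] at h1
      have h2 : t - algebraMap k (AlgebraicClosure k) (a e.1) ≠ 0 := Finset.prod_ne_zero_iff.1 hA _ (Finset.mem_univ _)
      have h3 : t - algebraMap k (AlgebraicClosure k) (b e.1) ≠ 0 := Finset.prod_ne_zero_iff.1 hB _ (Finset.mem_univ _)
      exact (mul_ne_zero (pow_ne_zero _ h2) (pow_ne_zero _ h3)) h1.symm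
    have h1 : (finrank k (gal z) : ℝ) * ∑ e : Fin r × Fin (n + 1), lam (fun j : Fin (n + 1) => (fm5 a b e).coeff j) v
        (fun j : Fin (n + 1) => t ^ (j : ℕ)) = ∑ g : gal z ≃ₐ[k] gal z, ∑ s : Fin r, ∑ j : Fin (n + 1),
        (n * Real.log (max 1 (M v ((MonoidHom.id (gal z ≃ₐ[k] gal z)) g τ))) -
          Real.log (M v ((MonoidHom.id (gal z ≃ₐ[k] gal z)) g
            ((τ - algebraMap k (gal z) (a s)) ^ (j : ℕ) * (τ - algebraMap k (gal z) (b s)) ^ (n - (j : ℕ)))))) := by
      rw [Finset.mul_sum]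
      have h2 : ∀ e : Fin r × Fin (n + 1), (finrank k (gal z) : ℝ) * lam (fun j : Fin (n + 1) => (fm5 a b e).coeff j) v
          (fun j : Fin (n + 1) => t ^ (j : ℕ)) = ∑ g : gal z ≃ₐ[k] gal z,
          (n * Real.log (max 1 (M v ((MonoidHom.id (gal z ≃ₐ[k] gal z)) g τ))) -
          Real.log (M v ((MonoidHom.id (gal z ≃ₐ[k] gal z)) g
            ((τ - algebraMap k (gal z) (a e.1)) ^ (e.2 : ℕ) * (τ - algebraMap k (gal z) (b e.1)) ^ (n - (e.2 : ℕ)))))) := by
        intro e
        rw [d2 v _ (hne e)]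
        refine Finset.sum_congr rfl fun g _ => ?_
        rw [← hval e]
        have h3 := hmx v g
        rw [← h3]
        rfl
      rw [Finset.sum_congr rfl fun e _ => h2 e, Finset.sum_comm]
      refine Finset.sum_congr rfl fun g _ => ?_
      rw [Fintype.sum_prod_type]
    have h2 : (finrank k (gal z) : ℝ) * ((n * (n + 1) / 2 : ℝ) * (2 * lm73 u v - Real.log (nv v u) - 2 * (LQ5 a v + LQ5 b v))) ≤
        (finrank k (gal z) : ℝ) * ∑ e : Fin r × Fin (n + 1), lam (fun j : Fin (n + 1) => (fm5 a b e).coeff j) v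
        (fun j : Fin (n + 1) => t ^ (j : ℕ)) := by
      rw [h1, ← hcard, ← nsmul_eq_mul, ← Finset.card_univ, ← Finset.sum_const]
      exact Finset.sum_le_sum fun g _ => loc5 (hQS.av73 v g) (n := n) hu hz hA' hB'
    exact le_of_mul_le_mul_left h2 hpos

/-- `r (n + 1)` for `r (n + 1)` forms. -/
theorem sharp5 {n r : ℕ} (hn : 1 ≤ n) (hr : 0 < r) (a b : Fin r → k) (hab : Function.Injective (Sum.elim a b)) :
    ∃ (S : Finset (Pl k)) (C : ℝ), ∀ (A : Finset (Fin (n + 1) → k)) (B : ℝ), (∀ m ∈ A, m ≠ 0) →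
      ∃ (u : k) (t : AlgebraicClosure k), u ≠ 0 ∧ 1 + u ≠ 0 ∧
        ∏ s, (t - algebraMap k _ (a s)) + algebraMap k _ u * ∏ s, (t - algebraMap k _ (b s)) = 0 ∧
        dg (fun j : Fin (n + 1) => t ^ (j : ℕ)) ≤ r ∧
        (∀ e : Fin r × Fin (n + 1), val (fun j : Fin (n + 1) => (fm5 a b e).coeff j) (fun j : Fin (n + 1) => t ^ (j : ℕ)) ≠ 0) ∧
        (∀ m ∈ A, val m (fun j : Fin (n + 1) => t ^ (j : ℕ)) ≠ 0) ∧ B ≤ hgt (fun j : Fin (n + 1) => t ^ (j : ℕ)) ∧
        (r * (n + 1) : ℝ) * hgt (fun j : Fin (n + 1) => t ^ (j : ℕ)) - C ≤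
          ∑ ν ∈ S, ∑ e : Fin r × Fin (n + 1), lam (fun j : Fin (n + 1) => (fm5 a b e).coeff j) ν (fun j : Fin (n + 1) => t ^ (j : ℕ)) := by
  classical
  obtain ⟨S, hS⟩ := exists_S5 k
  have hT := T_pos5 (k := k)
  have hcz : CharZero (AlgebraicClosure k) := charZero_of_injective_algebraMap (algebraMap k (AlgebraicClosure k)).injective
  have hinj := (algebraMap k (AlgebraicClosure k)).injective
  set GP := gsum (LP5 (Sum.elim a b)) with hGP
  set GQ := gsum fun v => LQ5 a v + LQ5 b v with hGQ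
  refine ⟨S, n * (n + 1) * (r * GP + ∑ v ∈ S, (LQ5 a v + LQ5 b v)), fun A B hA => ?_⟩
  -- the values to be avoided
  let Q : (Fin (n + 1) → k) → Polynomial (AlgebraicClosure k) := fun c =>
    ∑ j, Polynomial.C (algebraMap k _ (c j)) * Polynomial.X ^ (j : ℕ)
  have hQ : ∀ c ∈ A, Q c ≠ 0 := by
    intro c hc h0
    apply hA c hc
    funext j
    have h1 : (Q c).coeff j = algebraMap k _ (c j) := by
      show (∑ j, Polynomial.C (algebraMap k _ (c j)) * Polynomial.X ^ (j : ℕ)).coeff j = _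
      rw [Polynomial.finsetSum_coeff, Finset.sum_eq_single j]
      · rw [Polynomial.coeff_C_mul_X_pow, if_pos rfl]
      · intro i _ hi
        rw [Polynomial.coeff_C_mul_X_pow, if_neg fun hh => hi (Fin.ext hh).symm]
      · intro h
        exact absurd (Finset.mem_univ _) h
    rw [h0, Polynomial.coeff_zero] at h1
    have h2 := h1.symm
    rwa [map_eq_zero_iff _ hinj] at h2
  let Z : Finset (AlgebraicClosure k) := (A.biUnion fun c => (Q c).roots.toFinset).image fun t =>
    -(∏ s, (t - algebraMap k _ (a s))) / ∏ s, (t - algebraMap k _ (b s))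
  obtain ⟨m₀, hm₀⟩ := exists_pow5 Z
  obtain ⟨m₁, hm₁⟩ := exists_nat_ge ((r * |B| + |GQ|) / T5 k)
  set m := m₀ + m₁ with hm
  set u : k := (2 : k) ^ m with hu
  have hu0 : u ≠ 0 := pow_ne_zero _ two_ne_zero
  have hu1 : 1 + u ≠ 0 := by
    have h1 : (1 + u : k) = ((1 + 2 ^ m : ℕ) : k) := by
      push_cast
      rw [hu]
    rw [h1]
    exact Nat.cast_ne_zero.2 (by positivity)
  have hF := pF5 a b hu1
  have hF0 : pr5 a + Polynomial.C u * pr5 b ≠ 0 := by
    intro h0
    rw [h0, Polynomial.natDegree_zero] at hF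
    omega
  obtain ⟨t, ht⟩ := IsAlgClosed.exists_aeval_eq_zero (AlgebraicClosure k) (pr5 a + Polynomial.C u * pr5 b) (by
    rw [Polynomial.degree_eq_natDegree hF0, hF]
    exact_mod_cast hr.ne')
  have ht' := ht
  rw [map_add, map_mul, Polynomial.aeval_C, pr_aeval5, pr_aeval5] at ht'
  have hua : algebraMap k (AlgebraicClosure k) u ≠ 0 := (map_ne_zero _).2 hu0
  have hAt : ∏ s, (t - algebraMap k (AlgebraicClosure k) (a s)) ≠ 0 := by
    intro h0
    rw [h0, zero_add] at ht'
    have h1 := (mul_eq_zero.1 ht').resolve_left hua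
    obtain ⟨i, -, hi⟩ := Finset.prod_eq_zero_iff.1 h0
    obtain ⟨i', -, hi'⟩ := Finset.prod_eq_zero_iff.1 h1
    have h2 : a i = b i' := hinj ((sub_eq_zero.1 hi).symm.trans (sub_eq_zero.1 hi'))
    have h3 : Sum.elim a b (Sum.inl i) = Sum.elim a b (Sum.inr i') := h2
    exact absurd (hab h3) (by simp)
  have hBt : ∏ s, (t - algebraMap k (AlgebraicClosure k) (b s)) ≠ 0 := by
    intro h0
    rw [h0, mul_zero, add_zero] at ht'
    exact hAt ht'
  obtain ⟨g1, g2, g3⟩ := one5 (n := n) hr hab hu0 t ht' hAt hBt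
  have hgs : gsum (lm73 u) = m * T5 k := gsum_lm5 m
  rw [hgs, ← hGP] at g1
  rw [hgs, ← hGQ] at g2
  have hn1 : (1 : ℝ) ≤ n := by exact_mod_cast hn
  have hr1 : (0 : ℝ) < r := by exact_mod_cast hr
  refine ⟨u, t, hu0, hu1, ht', ?_, fun e h0 => ?_, fun c hc h0 => ?_, ?_, ?_⟩
  · exact dg_le5 _ t _ hF0 hF ht fun j => pow_mem (IntermediateField.mem_adjoin_simple_self k t) _
  · have h1 := coe_val5 (fun j : Fin (n + 1) => (fm5 a b e).coeff j) (fun j : Fin (n + 1) => t ^ (j : ℕ))
    rw [h0, sum_coeff5 (fm5 a b e) (fm_deg5 a b e) t, fm_aeval5] at h1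
    have h2 : t - algebraMap k (AlgebraicClosure k) (a e.1) ≠ 0 := Finset.prod_ne_zero_iff.1 hAt _ (Finset.mem_univ _)
    have h3 : t - algebraMap k (AlgebraicClosure k) (b e.1) ≠ 0 := Finset.prod_ne_zero_iff.1 hBt _ (Finset.mem_univ _)
    exact (mul_ne_zero (pow_ne_zero _ h2) (pow_ne_zero _ h3)) h1.symm
  · have h1 := coe_val5 c (fun j : Fin (n + 1) => t ^ (j : ℕ))
    rw [h0] at h1
    apply hm₀ m (Nat.le_add_right _ _)
    have h2 : (2 : AlgebraicClosure k) ^ m = -(∏ s, (t - algebraMap k _ (a s))) / ∏ s, (t - algebraMap k _ (b s)) := by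
      rw [eq_div_iff hBt]
      have h3 : algebraMap k (AlgebraicClosure k) u = 2 ^ m := by
        rw [hu, map_pow, map_ofNat]
      rw [h3] at ht'
      linear_combination ht'
    rw [h2]
    refine Finset.mem_image.2 ⟨t, Finset.mem_biUnion.2 ⟨c, hc, ?_⟩, rfl⟩
    rw [Multiset.mem_toFinset, Polynomial.mem_roots (hQ c hc)]
    show Polynomial.eval t (∑ j, Polynomial.C (algebraMap k _ (c j)) * Polynomial.X ^ (j : ℕ)) = 0
    rw [Polynomial.eval_finsetSum]
    simp only [Polynomial.eval_mul, Polynomial.eval_C, Polynomial.eval_pow, Polynomial.eval_X]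
    exact h1.symm
  · have h1 : (r * |B| + |GQ|) / T5 k ≤ m := hm₁.trans (by rw [hm]; push_cast; have : (0 : ℝ) ≤ m₀ := Nat.cast_nonneg _; linarith)
    rw [div_le_iff₀ hT] at h1
    have h2 := le_abs_self GQ
    have h3 : (r : ℝ) * |B| ≤ m * T5 k - GQ := by linarith
    have h4 : (0 : ℝ) ≤ r * |B| := mul_nonneg hr1.le (abs_nonneg _)
    have h5 : (r : ℝ) * |B| ≤ n * (m * T5 k - GQ) := by nlinarith
    exact (le_abs_self B).trans (le_of_mul_le_mul_left (h5.trans g2) hr1)
  · have h1 := Finset.sum_le_sum fun v (_ : v ∈ S) => g3 v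
    rw [← Finset.mul_sum] at h1
    have h2 : ∑ v ∈ S, (2 * lm73 u v - Real.log (nv v u) - 2 * (LQ5 a v + LQ5 b v)) =
        2 * (m * T5 k) - 2 * ∑ v ∈ S, (LQ5 a v + LQ5 b v) := by
      obtain ⟨s1, s2⟩ := hS m
      rw [Finset.sum_sub_distrib, Finset.sum_sub_distrib, ← Finset.mul_sum, ← Finset.mul_sum, hu, s1, s2, sub_zero]
    rw [h2] at h1
    refine le_trans ?_ h1
    have h3 := mul_le_mul_of_nonneg_left g1 (by positivity : (0 : ℝ) ≤ (n + 1 : ℝ))
    linarith

end

end Pool.Agent.SQ
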