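import Mathlib.NumberTheory.NumberField.Cyclotomic.Basic
import Pool.Agent.Helper11.SH.SHARP5
import Pool.Agent.Helper4.SH4.GP5

/-!
# SQ, block SHARP6: `r (n + 1)` hyperplanes in general position over every `k`; Galois points if `k` contains the `r`-th roots of unity
-/

set_option autoImplicit false
set_option linter.unusedSectionVars false

namespace Pool.Agent.SQ

open NumberField Filter Module
open Pool.Agent.Helper64.Vojta (Pl nv)
open Pool.Agent.V2
open Pool.Agent.Chart (fld dg crd val hgt lam)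

universe u

section

variable {k : Type u} [Field k] [NumberField k]

/-- `adjoin k {t}` is normal if `t ^ r` is in `k`. -/
private theorem normal6 {r : ℕ} (hr : 0 < r) {ζ : k} (hζ : IsPrimitiveRoot ζ r) {t : AlgebraicClosure k} {c : k}
    (ht : t ^ r = algebraMap k (AlgebraicClosure k) c) : Normal k (IntermediateField.adjoin k {t}) := by
  rw [IntermediateField.normal_iff_forall_map_le]
  intro σ
  rw [IntermediateField.adjoin_map, IntermediateField.adjoin_le_iff, Set.image_singleton, Set.singleton_subset_iff]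
  by_cases ht0 : t = 0
  · rw [ht0, map_zero]
    exact zero_mem _
  have h1 : (σ t / t) ^ r = 1 := by
    rw [div_pow, ← map_pow, ht, AlgHom.commutes, ← ht]
    exact div_self (pow_ne_zero _ ht0)
  have hζ' : IsPrimitiveRoot (algebraMap k (AlgebraicClosure k) ζ) r :=
    hζ.map_of_injective (algebraMap k (AlgebraicClosure k)).injective
  have hr' : NeZero r := ⟨hr.ne'⟩
  obtain ⟨i, -, hi⟩ := hζ'.eq_pow_of_pow_eq_one h1
  have h2 : σ t = algebraMap k _ (ζ ^ i) * t := by
    rw [map_pow, hi, div_mul_cancel₀ _ ht0]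
  rw [h2]
  exact mul_mem (IntermediateField.algebraMap_mem _ _) (IntermediateField.mem_adjoin_simple_self k t)

private theorem finrank6 {r : ℕ} (hr : 0 < r) {t : AlgebraicClosure k} {c : k}
    (ht : t ^ r = algebraMap k (AlgebraicClosure k) c) : finrank k (IntermediateField.adjoin k {t}) ≤ r := by
  rw [IntermediateField.adjoin.finrank (Algebra.IsIntegral.isIntegral t)]
  have h1 : minpoly k t ∣ Polynomial.X ^ r - Polynomial.C c := by
    refine minpoly.dvd k t ?_
    rw [map_sub, map_pow, Polynomial.aeval_X, Polynomial.aeval_C, ht, sub_self]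
  have h2 := Polynomial.natDegree_le_of_dvd h1 (Polynomial.X_pow_sub_C_ne_zero hr c)
  rwa [Polynomial.natDegree_X_pow_sub_C] at h2

private theorem gal_le6 {r : ℕ} (hr : 0 < r) {ζ : k} (hζ : IsPrimitiveRoot ζ r) {t : AlgebraicClosure k} {c : k}
    (ht : t ^ r = algebraMap k (AlgebraicClosure k) c) {n : ℕ} :
    finrank k (gal fun j : Fin (n + 1) => t ^ (j : ℕ)) ≤ r := by
  have h0 := normal6 hr hζ ht
  have h1 : gal (fun j : Fin (n + 1) => t ^ (j : ℕ)) ≤ IntermediateField.adjoin k {t} := by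
    unfold gal
    rw [IntermediateField.normalClosure_le_iff_of_normal]
    unfold fld
    rw [IntermediateField.adjoin_le_iff]
    rintro _ ⟨j, rfl⟩
    exact pow_mem (IntermediateField.mem_adjoin_simple_self k t) _
  have hfd : FiniteDimensional k (IntermediateField.adjoin k {t}) :=
    IntermediateField.adjoin.finiteDimensional (Algebra.IsIntegral.isIntegral t)
  exact (LinearMap.finrank_le_finrank_of_injective (f := (IntermediateField.inclusion h1).toLinearMap)
      (IntermediateField.inclusion_injective h1)).trans (finrank6 hr ht)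

/-- the product over the roots of unity -/
private theorem prod_roots6 {L : Type*} [Field L] {r : ℕ} (hr : 0 < r) {ζ : L} (hζ : IsPrimitiveRoot ζ r) (z b : L) :
    ∏ j : Fin r, (z - b * ζ ^ (j : ℕ)) = z ^ r - b ^ r := by
  classical
  rw [hζ.pow_sub_pow_eq_prod_sub_mul z b hr]
  have hinj : Function.Injective fun j : Fin r => ζ ^ (j : ℕ) := fun i j hij => Fin.ext (hζ.pow_inj i.2 j.2 hij)
  have h1 : Polynomial.nthRootsFinset r (1 : L) = Finset.univ.image fun j : Fin r => ζ ^ (j : ℕ) := by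
    symm
    refine Finset.eq_of_subset_of_card_le ?_ ?_
    · intro a ha
      obtain ⟨j, -, rfl⟩ := Finset.mem_image.1 ha
      rw [Polynomial.mem_nthRootsFinset hr]
      show (ζ ^ (j : ℕ)) ^ r = 1
      rw [← pow_mul, mul_comm, pow_mul, hζ.pow_eq_one, one_pow]
    · rw [hζ.card_nthRootsFinset, Finset.card_image_of_injective _ hinj, Finset.card_univ, Fintype.card_fin]
  rw [h1, Finset.prod_image fun i _ j _ hij => hinj hij]
  exact Finset.prod_congr rfl fun j _ => by rw [mul_comm b]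

/-- the points `a s`, `B a s` -/
private theorem main6 {n r : ℕ} (hn : 1 ≤ n) (hr : 0 < r) (a : Fin r → k) (ha : Function.Injective a) (ha0 : ∀ s, a s ≠ 0) :
    ∃ (b : k) (l : Fin (r * (n + 1)) → Fin (n + 1) → k) (S : Finset (Pl k)) (C : ℝ), GenPos l ∧
      ∀ (A : Finset (Fin (n + 1) → k)) (B : ℝ), (∀ m ∈ A, m ≠ 0) → ∃ (u : k) (t : AlgebraicClosure k), 1 + u ≠ 0 ∧
        ∏ s, (t - algebraMap k _ (a s)) + algebraMap k _ u * ∏ s, (t - algebraMap k _ (b * a s)) = 0 ∧
        dg (fun j : Fin (n + 1) => t ^ (j : ℕ)) ≤ r ∧ (∀ i, val (l i) (fun j : Fin (n + 1) => t ^ (j : ℕ)) ≠ 0) ∧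
        (∀ m ∈ A, val m (fun j : Fin (n + 1) => t ^ (j : ℕ)) ≠ 0) ∧ B ≤ hgt (fun j : Fin (n + 1) => t ^ (j : ℕ)) ∧
        (r * (n + 1) : ℝ) * hgt (fun j : Fin (n + 1) => t ^ (j : ℕ)) - C ≤
          ∑ ν ∈ S, ∑ i, lam (l i) ν (fun j : Fin (n + 1) => t ^ (j : ℕ)) := by
  classical
  obtain ⟨E, hE⟩ := Pool.Agent.SH4.gp5 hr a ha ha0 n
  obtain ⟨b, hb⟩ := Infinite.exists_notMem_finset E
  obtain ⟨hinj, hgp⟩ := hE b hb
  obtain ⟨S, C, h⟩ := sharp5 (n := n) hn hr a (fun s => b * a s) hinj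
  let e : Fin (r * (n + 1)) ≃ Fin r × Fin (n + 1) := finProdFinEquiv.symm
  let l : Fin (r * (n + 1)) → Fin (n + 1) → k := fun i j => (fm5 a (fun s => b * a s) (e i)).coeff j
  refine ⟨b, l, S, C, ?_, fun A B hA => ?_⟩
  · intro I hI
    have h1 := hgp (I.map e.toEmbedding) (by rw [Finset.card_map]; exact hI)
    let φ : I → I.map e.toEmbedding := fun i => ⟨e i.1, Finset.mem_map_of_mem _ i.2⟩
    have hφ : Function.Injective φ := by
      intro i j hij
      have h2 : e i.1 = e j.1 := congrArg Subtype.val hij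
      exact Subtype.ext (e.injective h2)
    exact h1.comp φ hφ
  · obtain ⟨u, t, -, h1, h2, h3, h4, h5, h6, h7⟩ := h A B hA
    refine ⟨u, t, h1, h2, h3, fun i => h4 (e i), h5, h6, ?_⟩
    have h8 : ∀ ν, ∑ i, lam (l i) ν (fun j : Fin (n + 1) => t ^ (j : ℕ)) =
        ∑ p : Fin r × Fin (n + 1), lam (fun j : Fin (n + 1) => (fm5 a (fun s => b * a s) p).coeff j) ν
          (fun j : Fin (n + 1) => t ^ (j : ℕ)) := fun ν =>
      Equiv.sum_comp e fun p => lam (fun j : Fin (n + 1) => (fm5 a (fun s => b * a s) p).coeff j) ν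
          (fun j : Fin (n + 1) => t ^ (j : ℕ))
    rw [Finset.sum_congr rfl fun ν _ => h8 ν]
    exact h7

/-- `r (n + 1)` for `r (n + 1)` hyperplanes in general position, over every number field; the points are Galois if `k` contains
the `r`-th roots of unity. -/
theorem sharp6 {n r : ℕ} (hn : 1 ≤ n) (hr : 0 < r) :
    ∃ (l : Fin (r * (n + 1)) → Fin (n + 1) → k) (S : Finset (Pl k)) (C : ℝ), GenPos l ∧
      ∀ (A : Finset (Fin (n + 1) → k)) (B : ℝ), (∀ m ∈ A, m ≠ 0) → ∃ x : Fin (n + 1) → AlgebraicClosure k,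
        (∃ j, x j = 1) ∧ dg x ≤ r ∧ ((∃ ζ : k, IsPrimitiveRoot ζ r) → finrank k (gal x) ≤ r) ∧ (∀ i, val (l i) x ≠ 0) ∧
          (∀ m ∈ A, val m x ≠ 0) ∧ B ≤ hgt x ∧ (r * (n + 1) : ℝ) * hgt x - C ≤ ∑ ν ∈ S, ∑ i, lam (l i) ν x := by
  classical
  by_cases hz : ∃ ζ : k, IsPrimitiveRoot ζ r
  · obtain ⟨ζ, hζ⟩ := hz
    obtain ⟨b, l, S, C, h1, h2⟩ := main6 (n := n) hn hr (fun s : Fin r => ζ ^ (s : ℕ))
      (fun i j hij => Fin.ext (hζ.pow_inj i.2 j.2 hij)) (fun s => pow_ne_zero _ (hζ.ne_zero hr.ne'))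
    refine ⟨l, S, C, h1, fun A B hA => ?_⟩
    obtain ⟨u, t, hu, ht, h3, h4, h5, h6, h7⟩ := h2 A B hA
    refine ⟨fun j => t ^ (j : ℕ), ⟨0, by simp⟩, h3, fun _ => ?_, h4, h5, h6, h7⟩
    have hζ' : IsPrimitiveRoot (algebraMap k (AlgebraicClosure k) ζ) r :=
      hζ.map_of_injective (algebraMap k (AlgebraicClosure k)).injective
    have e1 : ∏ s : Fin r, (t - algebraMap k (AlgebraicClosure k) (ζ ^ (s : ℕ))) = t ^ r - 1 := by
      have h8 := prod_roots6 hr hζ' t 1
      rw [one_pow] at h8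
      rw [← h8]
      exact Finset.prod_congr rfl fun s _ => by rw [one_mul, map_pow]
    have e2 : ∏ s : Fin r, (t - algebraMap k (AlgebraicClosure k) (b * ζ ^ (s : ℕ))) = t ^ r - algebraMap k _ b ^ r := by
      rw [← prod_roots6 hr hζ' t (algebraMap k _ b)]
      exact Finset.prod_congr rfl fun s _ => by rw [map_mul, map_pow]
    rw [e1, e2] at ht
    have hu' : (1 + algebraMap k (AlgebraicClosure k) u) ≠ 0 := by
      have h8 : (1 + algebraMap k (AlgebraicClosure k) u) = algebraMap k _ (1 + u) := by rw [map_add, map_one]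
      rw [h8]
      exact (map_ne_zero _).2 hu
    refine gal_le6 hr hζ (c := (1 + u * b ^ r) / (1 + u)) ?_
    rw [map_div₀, map_add, map_add, map_mul, map_pow, map_one, eq_div_iff hu']
    linear_combination ht
  · obtain ⟨b, l, S, C, h1, h2⟩ := main6 (n := n) hn hr (fun s : Fin r => (((s : ℕ) + 1 : ℕ) : k))
      (fun i j hij => Fin.ext (by have := Nat.cast_injective (R := k) hij; omega)) (fun s => Nat.cast_ne_zero.2 (Nat.succ_ne_zero _))
    refine ⟨l, S, C, h1, fun A B hA => ?_⟩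
    obtain ⟨u, t, hu, ht, h3, h4, h5, h6, h7⟩ := h2 A B hA
    exact ⟨fun j => t ^ (j : ℕ), ⟨0, by simp⟩, h3, fun h => absurd h hz, h4, h5, h6, h7⟩

end

end Pool.Agent.SQ
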